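import Mathlib

set_option autoImplicit false
set_option maxHeartbeats 400000

open Filter Topology Complex Asymptotics Bornology

namespace Pool.Agent.Results.MP_51e19e_an.LittleO

/-- the series with signs `a n`, the term of index `n` having denominator `t^2 + (n+1)^2` -/
noncomputable def f (a : ℕ → ℝ) (t : ℝ) : ℝ := ∑' n : ℕ, a n / (t ^ 2 + ((n : ℝ) + 1) ^ 2)

/-- the real zeros in the open interval from `-X` to `X` -/
def Z (a : ℕ → ℝ) (X : ℝ) : Set ℝ := {t | |t| < X ∧ f a t = 0}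

def U : Set ℂ := {z | -(1 / 8) < z.re}

theorem oU : IsOpen U := isOpen_lt continuous_const continuous_re

theorem step {F : ℂ → ℂ} {M a : ℝ} (ha : 0 < a) (hF : DifferentiableOn ℂ F U)
    (hM : ∀ z : ℂ, 0 ≤ z.re → ‖F z‖ ≤ M) (h0 : F a = 0) :
    ∃ G : ℂ → ℂ, DifferentiableOn ℂ G U ∧ (∀ z : ℂ, 0 ≤ z.re → ‖G z‖ ≤ M) ∧
      ∀ z, G z * (z - a) = F z * (z + a) := by
  have aU : U ∈ 𝓝 (a : ℂ) := oU.mem_nhds (by simp only [U, Set.mem_ofPred_eq, ofReal_re]; linarith)
  set G : ℂ → ℂ := fun z => dslope F a z * (z + a) with hG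
  have d : DifferentiableOn ℂ G U :=
    ((differentiableOn_dslope aU).2 hF).mul (by fun_prop)
  have e : ∀ z, G z * (z - a) = F z * (z + a) := fun z => by
    have := sub_smul_dslope F (a : ℂ) z
    rw [h0, smul_eq_mul, sub_zero] at this
    rw [← this, hG]; ring
  clear_value G
  have M0 : 0 ≤ M := (norm_nonneg _).trans (hM 0 le_rfl)
  have big : ∀ z : ℂ, 0 ≤ z.re → 2 * a ≤ ‖z‖ → ‖G z‖ ≤ 3 * M := fun z hz h2 => by
    have e1 := congrArg norm (e z)
    rw [norm_mul, norm_mul] at e1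
    have n1 : ‖z + a‖ ≤ ‖z‖ + a := by
      simpa [abs_of_pos ha] using norm_add_le z a
    have n2 : ‖z‖ - a ≤ ‖z - a‖ := by
      simpa [abs_of_pos ha] using norm_sub_norm_le z a
    have := hM z hz
    have p : 0 < ‖z - a‖ := by linarith
    refine le_of_mul_le_mul_right ?_ p
    rw [e1]
    calc ‖F z‖ * ‖z + a‖ ≤ M * (3 * ‖z - a‖) := by gcongr; linarith
      _ = _ := by ring
  refine ⟨G, d, fun z hz => ?_, e⟩
  refine PhragmenLindelof.right_half_plane_of_bounded_on_real ?_ ⟨0, by norm_num, 0, ?_⟩ ?_ ?_ hz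
  · refine (d.mono ?_).diffContOnCl
    rw [closure_setOfPred_lt_re]
    intro z hz; simp only [U, Set.mem_ofPred_eq] at *; linarith
  · refine IsBigO.of_bound (3 * M) ?_
    rw [eventually_inf_principal]
    filter_upwards [eventually_cobounded_le_norm (2 * a)] with z h1 h2
    simpa using big z (le_of_lt h2) h1
  · refine ⟨3 * M, ?_⟩
    rw [eventually_map]
    filter_upwards [eventually_ge_atTop (2 * a)] with x hx
    exact big x (by simp; linarith) (by simpa using hx.trans (le_abs_self x))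
  · intro x
    have e1 := congrArg norm (e (x * I))
    rw [norm_mul, norm_mul] at e1
    have n : ‖(x * I : ℂ) + a‖ = ‖(x * I : ℂ) - a‖ := by
      rw [← norm_neg (_ - _), ← Complex.norm_conj]; congr 1; simp; ring
    have p : 0 < ‖(x * I : ℂ) - a‖ := by
      rw [norm_pos_iff]; intro h
      have := congrArg re h
      simp at this; linarith
    rw [n] at e1
    rw [mul_right_cancel₀ p.ne' e1]
    exact hM _ (by simp)

theorem bl (M y : ℝ) (hy : 0 ≤ y) (S : Finset ℝ) : ∀ F : ℂ → ℂ, DifferentiableOn ℂ F U →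
    (∀ z : ℂ, 0 ≤ z.re → ‖F z‖ ≤ M) → (∀ s ∈ S, 0 < s ∧ F s = 0) →
    ‖F y‖ ≤ M * ∏ s ∈ S, |y - s| / (y + s) := by
  induction S using Finset.induction_on with
  | empty => intro F _ h _; simpa using h y (by simpa)
  | insert a S haS ih =>
    intro F hF hM hS
    obtain ⟨ha, h0⟩ := hS a (by simp)
    obtain ⟨G, d, b, e⟩ := step ha hF hM h0
    have := ih G d b fun s hs => by
      obtain ⟨h1, h2⟩ := hS s (by simp [hs])
      refine ⟨h1, ?_⟩
      have := e s
      rw [h2, zero_mul, mul_eq_zero, sub_eq_zero, ofReal_inj] at this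
      exact this.resolve_right fun h => haS (h ▸ hs)
    have e1 := congrArg norm (e y)
    rw [norm_mul, norm_mul, ← ofReal_sub, ← ofReal_add, norm_real, norm_real, Real.norm_eq_abs,
      Real.norm_eq_abs, abs_of_pos (a := y + a) (by linarith)] at e1
    rw [Finset.prod_insert haS, show ‖F y‖ = ‖G y‖ * (|y - a| / (y + a)) by
      rw [mul_div_assoc', e1, mul_div_cancel_right₀ _ (by linarith)], mul_left_comm, mul_comm]
    gcongr

noncomputable def T (a : ℕ → ℝ) (n : ℕ) (z : ℂ) : ℂ :=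
  a n / (((z + 1 / 4) ^ 2 + ((n : ℂ) + 1) ^ 2) * (z + 5 / 4))

theorem sq2 {x y : ℝ} (h : x ^ 2 ≤ y ^ 2) (hy : 0 ≤ y) : x ≤ y :=
  (abs_le_of_sq_le_sq' h hy).2

theorem low (t : ℂ) (m : ℝ) (ht : 1 / 8 < t.re) :
    m ^ 2 ≤ 9 * (‖t ^ 2 + (m : ℂ) ^ 2‖ * ‖t + 1‖) := by
  have h1 : ‖t‖ / 8 ≤ ‖t ^ 2 + (m : ℂ) ^ 2‖ := by
    refine sq2 ?_ (norm_nonneg _)
    rw [div_pow, Complex.sq_norm, Complex.sq_norm, normSq_apply, normSq_apply]
    simp only [add_re, add_im, pow_two, mul_re, mul_im, ofReal_re, ofReal_im]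
    have : (1 / 64 : ℝ) ≤ t.re * t.re := by nlinarith
    nlinarith [mul_self_nonneg (t.im * t.im - m * m), mul_nonneg (sub_nonneg.2 this) (mul_self_nonneg t.re),
      mul_nonneg (sub_nonneg.2 this) (mul_self_nonneg t.im), mul_self_nonneg (t.re * t.im),
      mul_self_nonneg (t.re * m)]
  have h2 : m ^ 2 ≤ ‖t ^ 2 + (m : ℂ) ^ 2‖ + ‖t‖ ^ 2 := by
    have := norm_sub_le (t ^ 2 + (m : ℂ) ^ 2) (t ^ 2)
    simpa using this
  have h3 : ‖t‖ ≤ ‖t + 1‖ := by
    refine sq2 ?_ (norm_nonneg _)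
    rw [Complex.sq_norm, Complex.sq_norm, normSq_apply, normSq_apply]; simp; nlinarith
  have h4 : 1 ≤ ‖t + 1‖ := by
    have := re_le_norm (t + 1); simp at this; linarith
  have := norm_nonneg t
  have := norm_nonneg (t ^ 2 + (m : ℂ) ^ 2)
  nlinarith [mul_le_mul h1 h3 (norm_nonneg _) (norm_nonneg _)]

theorem low' (n : ℕ) (z : ℂ) (hz : z ∈ U) :
    ((n : ℝ) + 1) ^ 2 ≤ 9 * ‖((z + 1 / 4) ^ 2 + ((n : ℂ) + 1) ^ 2) * (z + 5 / 4)‖ := by
  have := low (z + 1 / 4) (n + 1) (by simp only [U, Set.mem_ofPred_eq] at hz; simp; linarith)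
  rw [norm_mul, show z + 5 / 4 = z + 1 / 4 + 1 by ring]
  simpa using this

theorem zeta : HasSum (fun n : ℕ => 1 / ((n : ℝ) + 1) ^ 2) (Real.pi ^ 2 / 6) := by
  simpa using (hasSum_nat_add_iff' 1).2 hasSum_zeta_two

variable {a : ℕ → ℝ}

theorem Tb (ha : ∀ n, |a n| = 1) (n : ℕ) (z : ℂ) (hz : z ∈ U) :
    ‖T a n z‖ ≤ 9 * (1 / ((n : ℝ) + 1) ^ 2) := by
  have := low' n z hz
  have p : (0 : ℝ) < ((n : ℝ) + 1) ^ 2 := by positivity
  rw [T, norm_div, norm_real, Real.norm_eq_abs, ha, mul_one_div,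
    div_le_div_iff₀ (by linarith) p]
  linarith

theorem ne (ha : ∀ n, |a n| = 1) (t : ℝ) (ht : |t| ≤ 1 / 2) : 1 / 10 ≤ |f a t| := by
  have b : ∀ n : ℕ, ‖a n / (t ^ 2 + ((n : ℝ) + 1) ^ 2)‖ ≤ 1 / ((n : ℝ) + 1) ^ 2 := fun n => by
    rw [Real.norm_eq_abs, abs_div, ha, abs_of_pos (by positivity)]
    gcongr; linarith [sq_nonneg t]
  have s := Summable.of_norm_bounded zeta.summable b
  have z1 := (hasSum_nat_add_iff' 1).2 zeta
  have := tsum_of_norm_bounded z1 fun n => b (n + 1)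
  rw [f, s.tsum_eq_zero_add]
  have h1 : 4 / 5 ≤ |a 0 / (t ^ 2 + (((0 : ℕ) : ℝ) + 1) ^ 2)| := by
    rw [abs_div, ha, abs_of_pos (by positivity), div_le_div_iff₀ (by norm_num) (by positivity)]
    have := sq_abs t; have := abs_nonneg t
    simp; nlinarith
  have hp := Real.pi_lt_d2; have := Real.pi_pos
  have h2 : Real.pi ^ 2 / 6 ≤ 17 / 10 := by nlinarith
  rw [Real.norm_eq_abs] at *
  simp only [Finset.range_one, Finset.sum_singleton] at *
  generalize ∑' n : ℕ, a (n + 1) / (t ^ 2 + (((n + 1 : ℕ) : ℝ) + 1) ^ 2) = r at *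
  generalize a 0 / (t ^ 2 + (((0 : ℕ) : ℝ) + 1) ^ 2) = q at *
  have := abs_sub (q + r) r
  simp at *; linarith

theorem hT (s : ℝ) : ∑' n, T a n s = (f a (s + 1 / 4) / (s + 5 / 4) : ℝ) := by
  rw [f, ← tsum_div_const, ofReal_tsum]; congr 1; funext n
  rw [T]; push_cast; rw [div_div]

theorem sum (ha : ∀ n, |a n| = 1) : ∃ K : ℝ, ∀ S : Finset ℝ,
    (∀ t ∈ S, 1 / 2 < t ∧ f a t = 0) → ∑ t ∈ S, 1 / t ≤ K := by
  have u := zeta.mul_left 9
  have d : DifferentiableOn ℂ (fun z => ∑' n, T a n z) U :=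
    differentiableOn_tsum_of_summable_norm u.summable (fun n => by
      refine DifferentiableOn.div (by fun_prop) (by fun_prop) fun z hz h => ?_
      have := low' n z hz
      rw [h, norm_zero] at this
      have : (0 : ℝ) < ((n : ℝ) + 1) ^ 2 := by positivity
      linarith) oU (Tb ha)
  set M := 9 * (Real.pi ^ 2 / 6)
  have M0 : 0 < M := by have := Real.pi_pos; positivity
  refine ⟨2 * Real.log (15 * M), fun S hS => ?_⟩
  have := bl M (1 / 4) (by norm_num) (S.image fun t => t - 1 / 4) _ d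
    (fun z hz => tsum_of_norm_bounded u fun n => Tb ha n z (by simp only [U, Set.mem_ofPred_eq]; linarith))
    (by
      simp only [Finset.mem_image]
      rintro _ ⟨t, ht, rfl⟩
      refine ⟨by linarith [(hS t ht).1], ?_⟩
      rw [hT]; simp [(hS t ht).2])
  rw [hT, Finset.prod_image (fun x _ y _ h => by simpa using h), norm_real, Real.norm_eq_abs,
    abs_div] at this
  have h1 := ne ha (1 / 4 + 1 / 4) (by norm_num [abs_of_pos])
  have h2 : ∏ t ∈ S, |1 / 4 - (t - 1 / 4)| / (1 / 4 + (t - 1 / 4)) ≤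
      Real.exp (-((∑ t ∈ S, 1 / t) / 2)) := by
    rw [Finset.sum_div, ← Finset.sum_neg_distrib, Real.exp_sum]
    refine Finset.prod_le_prod (fun t ht => div_nonneg (abs_nonneg _) (by linarith [(hS t ht).1]))
      fun t ht => ?_
    have := (hS t ht).1
    refine le_trans (le_of_eq ?_) (Real.add_one_le_exp _)
    rw [abs_of_neg (by linarith), show 1 / 4 + (t - 1 / 4) = t by ring]
    have : t ≠ 0 := by linarith
    field_simp; ring
  have h3 : 1 / 15 ≤ M * Real.exp (-((∑ t ∈ S, 1 / t) / 2)) := by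
    refine le_trans ?_ (this.trans (mul_le_mul_of_nonneg_left h2 M0.le))
    rw [abs_of_pos (a := (1 / 4 + 5 / 4 : ℝ)) (by norm_num), le_div_iff₀ (by norm_num)]; linarith
  rw [Real.exp_neg, ← div_eq_mul_inv, le_div_iff₀ (Real.exp_pos _)] at h3
  have := (Real.le_log_iff_exp_le (x := (∑ t ∈ S, 1 / t) / 2) (y := 15 * M) (by positivity)).2
    (by linarith)
  linarith

theorem result (a : ℕ → ℝ) (ha : ∀ n, a n = 1 ∨ a n = -1) :
    (∀ X, (Z a X).Finite) ∧ Tendsto (fun X : ℝ => ((Z a X).ncard : ℝ) / X) atTop (𝓝 0) := by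
  classical
  have ha' : ∀ n, |a n| = 1 := fun n => by rcases ha n with h | h <;> simp [h]
  obtain ⟨K, hK⟩ := sum ha'
  let g : ℝ → ℝ := fun t => if 1 / 2 < t ∧ f a t = 0 then 1 / t else 0
  have g0 : ∀ t, 0 ≤ g t := fun t => by
    simp only [g]; split_ifs with h
    · have := h.1; positivity
    · rfl
  have sg : Summable g := summable_of_sum_le g0 fun S => by
    rw [← Finset.sum_filter]; exact hK _ fun t ht => (Finset.mem_filter.1 ht).2
  let W : ℝ → Set ℝ := fun X => {t | 1 / 2 < t ∧ f a t = 0 ∧ t < X}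
  have cnt : ∀ (X : ℝ) (S : Finset ℝ), (∀ t ∈ S, t ∈ W X) → (S.card : ℝ) ≤ X * ∑ t ∈ S, g t := by
    intro X S h
    rw [Finset.mul_sum, Finset.card_eq_sum_ones]; push_cast
    refine Finset.sum_le_sum fun t ht => ?_
    obtain ⟨h1, h2, h3⟩ := h t ht
    simp only [g, if_pos (And.intro h1 h2)]
    rw [mul_one_div, le_div_iff₀ (by linarith)]; linarith
  have fin : ∀ X, (W X).Finite := fun X => by
    by_contra h
    obtain ⟨n, hn⟩ := exists_nat_gt (|X| * ∑' t, g t)
    obtain ⟨S, h1, h2⟩ := Set.Infinite.exists_subset_card_eq h n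
    have := cnt X S h1
    have q := sg.sum_le_tsum S fun t _ => g0 t
    have q0 : 0 ≤ ∑ t ∈ S, g t := Finset.sum_nonneg fun t _ => g0 t
    have : X * ∑ t ∈ S, g t ≤ |X| * ∑' t, g t := mul_le_mul (le_abs_self X) q q0 (abs_nonneg X)
    rw [h2] at *; linarith
  have sub : ∀ X, Z a X ⊆ W X ∪ (fun t => -t) '' W X := fun X t ⟨h1, h2⟩ => by
    have : 1 / 2 < |t| := by
      by_contra h
      have := ne ha' t (not_lt.1 h)
      rw [h2] at this; norm_num at this
    rcases le_total 0 t with h | h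
    · rw [abs_of_nonneg h] at *; exact .inl ⟨this, h2, h1⟩
    · rw [abs_of_nonpos h] at *
      exact .inr ⟨-t, ⟨this, by rw [← h2, f, f, neg_sq], h1⟩, neg_neg t⟩
  have fu := fun X => (fin X).union ((fin X).image fun t => -t)
  refine ⟨fun X => (fu X).subset (sub X), ?_⟩
  rw [Metric.tendsto_atTop]
  intro e he
  obtain ⟨S0, h0⟩ := summable_iff_vanishing_norm.1 sg (e / 4) (by positivity)
  refine ⟨4 * S0.card / e + 1, fun X hX => ?_⟩
  have X0 : 0 < X := lt_of_lt_of_le (by positivity) hX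
  have c1 : (Z a X).ncard ≤ 2 * (W X).ncard :=
    ((Set.ncard_le_ncard (sub X) (fu X)).trans (Set.ncard_union_le _ _)).trans
      (by have := Set.ncard_image_le (f := fun t : ℝ => -t) (fin X); omega)
  have c2 : (W X).ncard ≤ ((fin X).toFinset \ S0).card + S0.card := by
    rw [Set.ncard_eq_toFinset_card _ (fin X)]; exact Finset.card_le_card_sdiff_add_card
  have c3 := cnt X ((fin X).toFinset \ S0) fun t ht => by simpa using (Finset.mem_sdiff.1 ht).1
  have c4 := (le_abs_self _).trans_lt (h0 ((fin X).toFinset \ S0) Finset.sdiff_disjoint)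
  have c5 : ((Z a X).ncard : ℝ) ≤ 2 * (((fin X).toFinset \ S0).card + S0.card) := by
    exact_mod_cast c1.trans (by omega)
  have c6 : 4 * (S0.card : ℝ) / e < X := by linarith
  rw [div_lt_iff₀ he] at c6
  rw [Real.dist_eq, sub_zero, abs_of_nonneg (by positivity), div_lt_iff₀ X0]
  nlinarith

end Pool.Agent.Results.MP_51e19e_an.LittleO
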